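import Pool.Agent.U349.EV.ArtEV

/-!
# The zeros of Artin L-functions and two extreme values of a sum over prime ideals

For a number field `E` let

`D_E(x) = (8/3) √x - ∑_𝔞 Λ(𝔞) N𝔞^(-1/2) min(N𝔞/x, x/N𝔞)`,

the sum over the ideals of `E`, `Λ(𝔭^k) = log N𝔭` and `Λ(𝔞) = 0` for all other ideals: a smoothed error term in the
count of the prime ideals.

Let `F/ℚ` be a finite Galois extension with group `G` for which Artin's conjecture holds (all `L(s, χ, F/ℚ)`,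
`χ ∈ Irr(G)`, are analytic for `s ≠ 1`; this is known if `G` is supersolvable), let `Γ_F` be the multiset of the
question, `|Γ_F|` the set of its members, each taken once, `d_γ` the least degree `χ(1)` of the `χ` with
`L(1/2 + iγ, χ) = 0`, and let `m = ∑_χ χ(1) ord_{s=1/2} L(s, χ)`. We prove:

* the Riemann hypothesis holds for all the `L(s, χ, F/ℚ)` if and only if `D_F` is bounded above, if and only if
  `limsup D_F = 2 m + ∑_{γ ∈ Γ_F} 4 χ(1) / (1 + γ²)` (the sum over the multiset, `γ` belongs to `χ`);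
* it holds and no value occurs twice in `Γ_F` if and only if `limsup D_F ≤ 2 m + ∑_{γ ∈ |Γ_F|} 4 d_γ / (1 + γ²)`;
* for every `c > 1` outside a countable set, it holds and the multiset `Γ_F` is linearly independent over `ℚ` if and
  only if `limsup D_F(x) ≤ 2 m + ∑_{γ ∈ |Γ_F|} 4 d_γ / (1 + γ²)` and
  `limsup |D_F(x) + 2 D_F(c x)| ≥ 6 m + ∑_{γ ∈ |Γ_F|} 4 d_γ |1 + 2 c^{iγ}| / (1 + γ²)`;
* for every number field `E`, without any hypothesis, the analogues for the continuation `Z` of `ζ_E(s)`, the set of the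
  ordinates of its zeros on the critical line and all combinations `∑ w_j D_E(c_j x)` of dilates.

A multiple or common zero makes the first extreme value too large, a linear relation makes the second one too small.

Proof. Under the Riemann hypothesis `D_F(x) = 2 m + ∑_{Γ_F} 4 χ(1) cos(γ log x) / (1 + γ²) + o(1)`
(`Pool.Agent.U544.LI`, which also has the Landau step and the factorization `ζ_F(s) = ∏_χ L(s, χ)^χ(1)`), and almost
periodicity gives `limsup D_F`. In `D_F(x) + 2 D_F(c x)` the ordinate `γ` has the phase `arg (1 + 2 c^{iγ})`;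
Kronecker's theorem gives equality in the case of linear independence, and a relation `∑ n_γ γ = 0` forces
`∏ ((1 + 2 c^{iγ}) / |1 + 2 c^{iγ}|)^{n_γ} = ± 1` if there is equality, which happens for countably many `c` only.
-/

set_option autoImplicit false

open Filter Topology NumberField IsDedekindDomain
open scoped Pointwise

namespace Pool.Agent.Results.MP_0f5a55_nt.ArtinExtremeValues

/-- `limsup_{x → ∞} W(x) ≤ v` -/
def LimsupLe (W : ℝ → ℝ) (v : ℝ) : Prop := ∀ ε : ℝ, 0 < ε → ∀ᶠ x in atTop, W x < v + ε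

/-- `limsup_{x → ∞} W(x) ≥ v` -/
def LimsupGe (W : ℝ → ℝ) (v : ℝ) : Prop := ∀ ε : ℝ, 0 < ε → ∃ᶠ x in atTop, v - ε < W x

/-- `limsup_{x → ∞} W(x) = v` -/
def LimsupIs (W : ℝ → ℝ) (v : ℝ) : Prop := LimsupLe W v ∧ LimsupGe W v

/-- the Riemann hypothesis for `Z` -/
def RH (Z : ℂ → ℂ) : Prop := ∀ ρ : ℂ, 0 < ρ.re → ρ.re < 1 → Z ρ = 0 → ρ.re = 1 / 2

/-! ### number fields -/

section field

variable (E : Type) [Field E] [NumberField E]

variable {E} in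
open Classical in
/-- the von Mangoldt function of an ideal: `log N𝔭` for `𝔭^k`, `k ≥ 1`, and `0` otherwise -/
noncomputable def Lam (𝔞 : Ideal (𝓞 E)) : ℝ := if IsPrimePow 𝔞 then Real.log (Ideal.absNorm 𝔞.radical) else 0

/-- `D_E(x) = (8/3) √x - ∑_𝔞 Λ(𝔞) N𝔞^(-1/2) min(N𝔞/x, x/N𝔞)` -/
noncomputable def D (x : ℝ) : ℝ :=
  8 / 3 * √x - ∑' 𝔞 : Ideal (𝓞 E), Lam 𝔞 / √(Ideal.absNorm 𝔞) * min (Ideal.absNorm 𝔞 / x) (x / Ideal.absNorm 𝔞)

/-- `Z` is the continuation of the Dedekind zeta function `ζ_E(s)` to all `s ≠ 1` -/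
def IsZeta (Z : ℂ → ℂ) : Prop := (∀ s : ℂ, s ≠ 1 → AnalyticAt ℂ Z s) ∧ ∀ s : ℂ, 1 < s.re → Z s = dedekindZeta E s

/-- the set of the positive ordinates of the zeros of `Z` on the critical line -/
def Ordinates (Z : ℂ → ℂ) : Type := {g : ℝ // 0 < g ∧ Z (1 / 2 + g * Complex.I) = 0}

/-- `4 m_γ / (1 + γ²)` with the multiplicity `m_γ` of `1/2 + iγ` -/
noncomputable def aSet (Z : ℂ → ℂ) (g : Ordinates Z) : ℝ :=
  4 * analyticOrderNatAt Z (1 / 2 + g.1 * Complex.I) / (1 + g.1 ^ 2)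

/-- the total amplitude of `∑ w_j D_E(c_j x)`: `2 ord_{1/2} Z ∑ w_j + ∑_γ a_γ |∑_j w_j c_j^{iγ}|` -/
noncomputable def V (Z : ℂ → ℂ) {m : ℕ} (w c : Fin m → ℝ) : ℝ :=
  2 * analyticOrderNatAt Z (1 / 2) * (∑ j, w j) +
    ∑' g : Ordinates Z, aSet Z g * ‖∑ j, (w j : ℂ) * (c j : ℂ) ^ (g.1 * Complex.I)‖

end field

/-! ### Artin L-functions -/

/-- the irreducible complex characters of `G` -/
def Irr (G : Type) [Group G] : Set (G → ℂ) :=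
  {χ | ∃ (n : ℕ) (ρ : Representation ℂ G (Fin n → ℂ)), ρ.IsIrreducible ∧ χ = ρ.character}

section artin

variable (F : Type) [Field F] [NumberField F]

/-- the pairs `(P, g)`, where `P` is a prime of `F` over the prime `p` of `ℚ` and `g` induces `x ↦ x ^ (N(p)^n)`
modulo `P` -/
def frobSet (p : Ideal (𝓞 ℚ)) (n : ℕ) : Set (Ideal (𝓞 F) × (F ≃ₐ[ℚ] F)) :=
  {x | x.1.IsPrime ∧ x.1.LiesOver p ∧ ∀ y : 𝓞 F, x.2 • y - y ^ (Ideal.absNorm p ^ n) ∈ x.1}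

variable {F} in
/-- `χ(p^n)`: the mean of `χ` over the elements which induce `x ↦ x ^ (N(p)^n)` modulo a prime over `p` -/
noncomputable def frobMean (χ : (F ≃ₐ[ℚ] F) → ℂ) (p : Ideal (𝓞 ℚ)) (n : ℕ) : ℂ :=
  (∑ᶠ x ∈ frobSet F p n, χ x.2) / (frobSet F p n).ncard

variable {F} in
/-- the term `χ(p^n) / (n p^(ns))` of `log L(s, χ)` -/
noncomputable def logTerm (χ : (F ≃ₐ[ℚ] F) → ℂ) (s : ℂ) (x : HeightOneSpectrum (𝓞 ℚ) × ℕ+) : ℂ :=
  frobMean χ x.1.asIdeal x.2 / ((x.2 : ℕ) * (Ideal.absNorm x.1.asIdeal : ℂ) ^ (((x.2 : ℕ) : ℂ) * s))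

variable {F} in
/-- `Λ` is the Artin L-function `L(s, χ, F/ℚ) = exp ∑ χ(p^n) / (n p^(ns))`, and it is analytic for all `s ≠ 1` -/
def IsArtinL (χ : (F ≃ₐ[ℚ] F) → ℂ) (Λ : ℂ → ℂ) : Prop :=
  (∀ s : ℂ, s ≠ 1 → AnalyticAt ℂ Λ s) ∧
    ∀ s : ℂ, 1 < s.re → ∃ l : ℂ, HasSum (logTerm χ s) l ∧ Λ s = Complex.exp l

variable (L : ((F ≃ₐ[ℚ] F) → ℂ) → ℂ → ℂ)

/-- the Riemann hypothesis for all the `L(s, χ)`, `χ ∈ Irr(G)` -/
def GRH : Prop := ∀ χ ∈ Irr (F ≃ₐ[ℚ] F), RH (L χ)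

/-- the multiset `Γ_F`: its members are the triples `(χ, γ, j)` with `χ ∈ Irr(G)`, `γ > 0` and
`j < ord_{s = 1/2 + iγ} L(s, χ)` -/
def Gamma : Type :=
  {p : (((F ≃ₐ[ℚ] F) → ℂ) × ℝ) × ℕ // p.1.1 ∈ Irr (F ≃ₐ[ℚ] F) ∧ 0 < p.1.2 ∧
    p.2 < analyticOrderNatAt (L p.1.1) (1 / 2 + p.1.2 * Complex.I)}

variable {F L} in
/-- the ordinate `γ` -/
def ordinate (p : Gamma F L) : ℝ := p.1.1.2

variable {F L} in
/-- `4 χ(1) / (1 + γ²)` -/
noncomputable def a (p : Gamma F L) : ℝ := 4 * (p.1.1.1 1).re / (1 + p.1.1.2 ^ 2)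

/-- `m = ∑_χ χ(1) ord_{s=1/2} L(s, χ)` -/
noncomputable def central : ℝ := ∑ᶠ χ ∈ Irr (F ≃ₐ[ℚ] F), (χ 1).re * analyticOrderNatAt (L χ) (1 / 2)

/-- `|Γ_F|`, the set of the different ordinates -/
def GammaSet : Type := {g : ℝ // 0 < g ∧ ∃ χ ∈ Irr (F ≃ₐ[ℚ] F), L χ (1 / 2 + g * Complex.I) = 0}

/-- `d_γ`: the least degree of the `χ ∈ Irr(G)` with `L(1/2 + iγ, χ) = 0` -/
noncomputable def deg (g : ℝ) : ℕ :=
  sInf {n : ℕ | ∃ χ ∈ Irr (F ≃ₐ[ℚ] F), L χ (1 / 2 + g * Complex.I) = 0 ∧ χ 1 = n}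

/-- `2 e + ∑_{γ ∈ |Γ_F|} 4 d_γ / (1 + γ²)` -/
noncomputable def A (e : ℝ) : ℝ := 2 * e + ∑' g : GammaSet F L, 4 * (deg F L g.1 : ℝ) / (1 + g.1 ^ 2)

/-- `6 e + ∑_{γ ∈ |Γ_F|} 4 d_γ |1 + 2 c^{iγ}| / (1 + γ²)` -/
noncomputable def B (c e : ℝ) : ℝ :=
  6 * e + ∑' g : GammaSet F L, 4 * (deg F L g.1 : ℝ) / (1 + g.1 ^ 2) * ‖1 + 2 * (c : ℂ) ^ (g.1 * Complex.I)‖

end artin

open Pool.Agent.U544.LI in
lemma deg_eq (F : Type) [Field F] [NumberField F] (L : ((F ≃ₐ[ℚ] F) → ℂ) → ℂ → ℂ) (g : ℝ) :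
    deg F L g = Pool.Agent.U349.EV.dmin (fun χ => χ ∈ Pool.Agent.H541R3.ART.Irr (F ≃ₐ[ℚ] F)) L dg g := by
  unfold deg Pool.Agent.U349.EV.dmin
  congr 1
  ext n
  constructor
  · rintro ⟨χ, h1, h2, h3⟩
    refine ⟨χ, h1, h2, ?_⟩
    have h4 := (dg_spec h1).1
    rw [h3] at h4
    exact_mod_cast h4.symm
  · rintro ⟨χ, h1, h2, h3⟩
    refine ⟨χ, h1, h2, ?_⟩
    rw [(dg_spec h1).1, h3]

open Pool.Agent.U544.LI in
lemma central_eq (F : Type) [Field F] [NumberField F] [IsGalois ℚ F] (L : ((F ≃ₐ[ℚ] F) → ℂ) → ℂ → ℂ) :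
    central F L = ((∑ χ ∈ Pool.Agent.H541R3.ART.irrF (F ≃ₐ[ℚ] F), dg χ * analyticOrderNatAt (L χ) (1 / 2) : ℕ) : ℝ) := by
  have h1 : central F L = ∑ χ ∈ Pool.Agent.H541R3.ART.irrF (F ≃ₐ[ℚ] F),
      (χ 1).re * analyticOrderNatAt (L χ) (1 / 2) :=
    finsum_mem_eq_finite_toFinset_sum _ (Pool.Agent.H541R3.ART.irr_finite (G := F ≃ₐ[ℚ] F))
  rw [h1]
  push_cast
  refine Finset.sum_congr rfl fun χ hχ => ?_
  rw [(dg_spec (Pool.Agent.H541R3.ART.mem_irrF.1 hχ)).1, Complex.natCast_re]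

open Pool.Agent.U544.LI in
/-- **Main theorem.** -/
theorem result :
    (∀ (E : Type) [Field E] [NumberField E], (∃ Z : ℂ → ℂ, IsZeta E Z) ∧ ∀ Z : ℂ → ℂ, IsZeta E Z →
      Summable (aSet Z) ∧
      (RH Z ↔ ∃ C, ∀ᶠ x in atTop, D E x ≤ C) ∧
      (RH Z ↔ LimsupIs (D E) (2 * analyticOrderNatAt Z (1 / 2) + ∑' g, aSet Z g)) ∧
      (RH Z → ∀ (m : ℕ) (w c : Fin m → ℝ), (∀ j, 0 < c j) → LimsupLe (fun x => ∑ j, w j * D E (c j * x)) (V Z w c)) ∧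
      (RH Z ∧ LinearIndependent ℚ (fun g : Ordinates Z => g.1) ↔
        ∀ (m : ℕ) (w c : Fin m → ℝ), (∀ j, 0 < c j) → LimsupIs (fun x => ∑ j, w j * D E (c j * x)) (V Z w c)) ∧
      ∃ N : Set ℝ, N.Countable ∧ ∀ c : ℝ, 1 < c → c ∉ N →
        (RH Z ∧ LinearIndependent ℚ (fun g : Ordinates Z => g.1) ↔
          LimsupIs (fun x => |D E x + 2 * D E (c * x)|) (V Z ![1, 2] ![1, c]))) ∧
    (∀ (F : Type) [Field F] [NumberField F] [IsGalois ℚ F] (L : ((F ≃ₐ[ℚ] F) → ℂ) → ℂ → ℂ),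
      (∀ χ ∈ Irr (F ≃ₐ[ℚ] F), IsArtinL χ (L χ)) →
      Summable (a (F := F) (L := L)) ∧
      Summable (fun g : GammaSet F L => 4 * (deg F L g.1 : ℝ) / (1 + g.1 ^ 2)) ∧
      (GRH F L ↔ ∃ C, ∀ᶠ x in atTop, D F x ≤ C) ∧
      (GRH F L ↔ LimsupIs (D F) (2 * central F L + ∑' p : Gamma F L, a p)) ∧
      (GRH F L ∧ Function.Injective (ordinate (F := F) (L := L)) ↔ LimsupLe (D F) (A F L (central F L))) ∧
      ∃ N : Set ℝ, N.Countable ∧ ∀ c : ℝ, 1 < c → c ∉ N →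
        (GRH F L ∧ LinearIndependent ℚ (ordinate (F := F) (L := L)) ↔
          LimsupLe (D F) (A F L (central F L)) ∧
          LimsupGe (fun x => |D F x + 2 * D F (c * x)|) (B F L c (central F L)))) := by
  constructor
  · intro E _ _
    exact ⟨exists_Z E, fun Z hZ => Pool.Agent.U349.EV.ded_ev E hZ (D := D E) (fun x hx => D_ideal E hx)⟩
  · intro F _ _ _ L hL
    have hZ : ∀ χ ∈ Pool.Agent.H541R3.ART.Irr (F ≃ₐ[ℚ] F), IsArt F χ (L χ) := hL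
    obtain ⟨c1, c2, c3, c4, c5, N, hN, c6⟩ := Pool.Agent.U349.EV.art_ev F hZ (D := D F) (fun x hx => D_ideal F hx)
      (M := ∑ χ ∈ Pool.Agent.H541R3.ART.irrF (F ≃ₐ[ℚ] F), dg χ * analyticOrderNatAt (L χ) (1 / 2)) rfl
    have ha : ∀ p : Gamma F L, a p = 4 * (dg p.1.1.1 : ℝ) / (1 + p.1.1.2 ^ 2) := by
      intro p
      unfold a
      rw [(dg_spec p.2.1).1, Complex.natCast_re]
    have hA : ∀ e : ℝ, A F L e = 2 * e + ∑' g, Pool.Agent.U349.EV.rr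
        (fun χ => χ ∈ Pool.Agent.H541R3.ART.Irr (F ≃ₐ[ℚ] F)) L dg g := by
      intro e
      unfold A
      congr 1
      refine tsum_congr fun g => ?_
      rw [deg_eq]
      rfl
    have hB : ∀ c e : ℝ, B F L c e = 6 * e + ∑' g : Pool.Agent.U349.EV.OrdP
        (fun χ => χ ∈ Pool.Agent.H541R3.ART.Irr (F ≃ₐ[ℚ] F)) L, Pool.Agent.U349.EV.rr
        (fun χ => χ ∈ Pool.Agent.H541R3.ART.Irr (F ≃ₐ[ℚ] F)) L dg g * ‖1 + 2 * (c : ℂ) ^ (g.1 * Complex.I)‖ := by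
      intro c e
      unfold B
      congr 1
      refine tsum_congr fun g => ?_
      rw [deg_eq]
      rfl
    rw [central_eq]
    refine ⟨c1.congr fun p => (ha p).symm, c2.congr fun g => ?_, c3, ?_, ?_, N, hN, fun c hc hcN => ?_⟩
    · rw [deg_eq]
      rfl
    · have e1 : ∑' p : Gamma F L, a p = ∑' p : GamP (fun χ => χ ∈ Pool.Agent.H541R3.ART.Irr (F ≃ₐ[ℚ] F)) L,
          4 * (dg p.1.1.1 : ℝ) / (1 + p.1.1.2 ^ 2) := tsum_congr fun p => ha p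
      rw [e1]
      exact c4
    · rw [hA]
      refine Iff.trans ?_ (c5 _ le_rfl)
      exact ⟨fun h => ⟨h.1, rfl, h.2⟩, fun h => ⟨h.1, h.2.2⟩⟩
    · rw [hA, hB]
      refine Iff.trans ?_ (c6 c hc hcN _ le_rfl)
      exact ⟨fun h => ⟨h.1, rfl, h.2⟩, fun h => ⟨h.1, h.2.2⟩⟩

end Pool.Agent.Results.MP_0f5a55_nt.ArtinExtremeValues
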