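import Pool.Agent.U544.LI.DedD

/-!
# One exponential moment of the primes and the linear independence of the zeros of Artin L-functions

For a number field `E` let

`D_E(x) = (8/3) √x - ∑_𝔞 Λ(𝔞) N𝔞^(-1/2) min(N𝔞/x, x/N𝔞)`,

the sum over the ideals, `Λ(𝔭^k) = log N𝔭` and `Λ(𝔞) = 0` for all other ideals: a smoothed error term in the count of
the prime ideals. Fix any `λ > 0` and look at the logarithmic mean

`M_E(X) = (1 / log X) ∫_1^X exp (λ D_E(x)) dx/x`.

Let `F/ℚ` be a finite Galois extension with group `G` for which Artin's conjecture holds (all `L(s, χ, F/ℚ)`,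
`χ ∈ Irr(G)`, are analytic for `s ≠ 1`; this is known if `G` is supersolvable), and `Γ_F` the multiset of the ordinates
`γ > 0` of the zeros `1/2 + iγ` of all the `L(s, χ, F/ℚ)`. Put `a_γ = 4 λ χ(1) / (1 + γ²)` for a member of `Γ_F` which
belongs to `χ`, and

`V = exp (2 λ ∑_χ χ(1) ord_{s=1/2} L(s, χ)) ∏_{γ ∈ Γ_F} I_0(a_γ)`.

Then, for every single `λ > 0`:

* (unconditionally) the Riemann hypothesis holds for all the `L(s, χ, F/ℚ)` if and only if `M_F(X)` is bounded;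
* if it holds, then, without any assumption on the ordinates, the limit of `M_F(X)` exists and is `V` times the sum of
  `∏_γ I_{|n_γ|}(a_γ) / I_0(a_γ)` over all the integral linear relations `∑ n_γ γ = 0` between the members of the
  multiset `Γ_F` (if `γ` occurs twice, this gives a relation);
* (unconditionally) `limsup M_F(X)` is at least `V` times the sum over any finite set of relations;
* (unconditionally) the Riemann hypothesis holds for all the `L(s, χ, F/ℚ)` and `Γ_F` is linearly independent over `ℚ`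
  if and only if `limsup M_F(X) ≤ V`.

The same is proved, with no hypothesis at all, for the zeta function of every number field `E` (Galois or not) and
the set of the ordinates of its zeros on the critical line, with their multiplicities as weights.

Proof. `(s - 1) ζ_E(s)` is entire of order one, has no zeros for `Re s ≥ 1` (de la Vallée-Poussin, and the class
number formula at `s = 1`), and `-ζ_E'/ζ_E` has nonnegative coefficients; for such a function the explicit formula for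
`D_E` has the positive residues `4 m_γ / (1 + γ²)` and the general theorems of `Pool.Agent.U544.LI` apply. The
factorization `ζ_F(s) = ∏_χ L(s, χ)^χ(1)` is proved from the definition of the Artin L-functions.
-/

set_option autoImplicit false

open Filter Topology NumberField IsDedekindDomain
open scoped Nat Pointwise

namespace Pool.Agent.Results.MP_0f5a55_nt.ArtinMeanValue

/-- `I_k(x) = ∑ (x/2)^(2j+k) / (j! (j+k)!)` -/
noncomputable def Bessel (k : ℕ) (x : ℝ) : ℝ := ∑' j : ℕ, (x / 2) ^ (2 * j + k) / ((j)! * (j + k)!)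

section law

variable {ι : Type}

/-- the integral linear relations `∑ n_i γ_i = 0` between the members of a family of real numbers -/
def Relation (γ : ι → ℝ) : Type := {n : ι →₀ ℤ // (n.sum fun i k => (k : ℝ) * γ i) = 0}

/-- `∏_i I_{|n_i|}(a_i) / I_0(a_i)` for a relation `n` (the factors with `n_i = 0` are `1`) -/
noncomputable def weight {γ : ι → ℝ} (a : ι → ℝ) (n : Relation γ) : ℝ :=
  n.1.prod fun i k => Bessel k.natAbs (a i) / Bessel 0 (a i)

/-- The law of the mean value `M` for the frequencies `γ_i` with the parameters `a_i`, the constant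
`V = c ∏ I_0(a_i)` and the Riemann hypothesis `R`. -/
structure Law (γ a : ι → ℝ) (c : ℝ) (R : Prop) (M : ℝ → ℝ) : Prop where
  prod : Multipliable fun i => Bessel 0 (a i)
  bdd : R ↔ ∃ C, ∀ᶠ X in atTop, M X ≤ C
  exact : R → Summable (weight (γ := γ) a) ∧
    Tendsto M atTop (𝓝 (c * (∏' i, Bessel 0 (a i)) * ∑' n : Relation γ, weight a n))
  lower : ∀ (s : Finset (Relation γ)) (ε : ℝ), 0 < ε →
    ∃ᶠ X in atTop, c * (∏' i, Bessel 0 (a i)) * ∑ n ∈ s, weight a n - ε < M X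
  indep : R ∧ LinearIndependent ℚ γ ↔
    ∀ ε : ℝ, 0 < ε → ∀ᶠ X in atTop, M X < c * (∏' i, Bessel 0 (a i)) + ε

end law

/-- the Riemann hypothesis for `Z` -/
def RH (Z : ℂ → ℂ) : Prop := ∀ ρ : ℂ, 0 < ρ.re → ρ.re < 1 → Z ρ = 0 → ρ.re = 1 / 2

/-! ### number fields -/

section field

variable (E : Type) [Field E] [NumberField E]

variable {E} in
open Classical in
/-- the von Mangoldt function of an ideal: `log N𝔭` for `𝔭^k`, `k ≥ 1`, and `0` otherwise -/
noncomputable def Lam (𝔞 : Ideal (𝓞 E)) : ℝ := if IsPrimePow 𝔞 then Real.log (Ideal.absNorm 𝔞.radical) else 0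

/-- `D_E(x) = (8/3) √x - ∑_𝔞 Λ(𝔞) N𝔞^(-1/2) min(N𝔞/x, x/N𝔞)` -/
noncomputable def D (x : ℝ) : ℝ :=
  8 / 3 * √x - ∑' 𝔞 : Ideal (𝓞 E), Lam 𝔞 / √(Ideal.absNorm 𝔞) * min (Ideal.absNorm 𝔞 / x) (x / Ideal.absNorm 𝔞)

/-- `M_E(X) = (1 / log X) ∫_1^X exp (λ D_E(x)) dx/x` -/
noncomputable def M (lam X : ℝ) : ℝ := (∫ x in (1:ℝ)..X, Real.exp (lam * D E x) / x) / Real.log X

/-- `Z` is the continuation of the Dedekind zeta function `ζ_E(s)` to all `s ≠ 1` -/
def IsZeta (Z : ℂ → ℂ) : Prop := (∀ s : ℂ, s ≠ 1 → AnalyticAt ℂ Z s) ∧ ∀ s : ℂ, 1 < s.re → Z s = dedekindZeta E s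

/-- the set of the positive ordinates of the zeros of `Z` on the critical line -/
def Ordinates (Z : ℂ → ℂ) : Type := {g : ℝ // 0 < g ∧ Z (1 / 2 + g * Complex.I) = 0}

/-- `4 λ m_γ / (1 + γ²)` with the multiplicity `m_γ` of `1/2 + iγ` -/
noncomputable def aSet (Z : ℂ → ℂ) (lam : ℝ) (g : Ordinates Z) : ℝ :=
  4 * lam * analyticOrderNatAt Z (1 / 2 + g.1 * Complex.I) / (1 + g.1 ^ 2)

end field

/-! ### Artin L-functions -/

/-- the irreducible complex characters of `G` -/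
def Irr (G : Type) [Group G] : Set (G → ℂ) :=
  {χ | ∃ (n : ℕ) (ρ : Representation ℂ G (Fin n → ℂ)), ρ.IsIrreducible ∧ χ = ρ.character}

section artin

variable (F : Type) [Field F] [NumberField F]

/-- the pairs `(P, g)`, where `P` is a prime of `F` over the prime `p` of `ℚ` and `g` induces `x ↦ x ^ (N(p)^n)`
modulo `P` -/
def frobSet (p : Ideal (𝓞 ℚ)) (n : ℕ) : Set (Ideal (𝓞 F) × (F ≃ₐ[ℚ] F)) :=
  {x | x.1.IsPrime ∧ x.1.LiesOver p ∧ ∀ y : 𝓞 F, x.2 • y - y ^ (Ideal.absNorm p ^ n) ∈ x.1}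

variable {F} in
/-- `χ(p^n)`: the mean of `χ` over the elements which induce `x ↦ x ^ (N(p)^n)` modulo a prime over `p` -/
noncomputable def frobMean (χ : (F ≃ₐ[ℚ] F) → ℂ) (p : Ideal (𝓞 ℚ)) (n : ℕ) : ℂ :=
  (∑ᶠ x ∈ frobSet F p n, χ x.2) / (frobSet F p n).ncard

variable {F} in
/-- the term `χ(p^n) / (n p^(ns))` of `log L(s, χ)` -/
noncomputable def logTerm (χ : (F ≃ₐ[ℚ] F) → ℂ) (s : ℂ) (x : HeightOneSpectrum (𝓞 ℚ) × ℕ+) : ℂ :=
  frobMean χ x.1.asIdeal x.2 / ((x.2 : ℕ) * (Ideal.absNorm x.1.asIdeal : ℂ) ^ (((x.2 : ℕ) : ℂ) * s))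

variable {F} in
/-- `Λ` is the Artin L-function `L(s, χ, F/ℚ) = exp ∑ χ(p^n) / (n p^(ns))`, and it is analytic for all `s ≠ 1` -/
def IsArtinL (χ : (F ≃ₐ[ℚ] F) → ℂ) (Λ : ℂ → ℂ) : Prop :=
  (∀ s : ℂ, s ≠ 1 → AnalyticAt ℂ Λ s) ∧
    ∀ s : ℂ, 1 < s.re → ∃ l : ℂ, HasSum (logTerm χ s) l ∧ Λ s = Complex.exp l

variable (L : ((F ≃ₐ[ℚ] F) → ℂ) → ℂ → ℂ)

/-- the multiset `Γ_F`: its members are the triples `(χ, γ, j)` with `χ ∈ Irr(G)`, `γ > 0` and
`j < ord_{s = 1/2 + iγ} L(s, χ)` -/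
def Gamma : Type :=
  {p : (((F ≃ₐ[ℚ] F) → ℂ) × ℝ) × ℕ // p.1.1 ∈ Irr (F ≃ₐ[ℚ] F) ∧ 0 < p.1.2 ∧
    p.2 < analyticOrderNatAt (L p.1.1) (1 / 2 + p.1.2 * Complex.I)}

variable {F L} in
/-- the ordinate `γ` -/
def ordinate (p : Gamma F L) : ℝ := p.1.1.2

variable {F L} in
/-- `4 λ χ(1) / (1 + γ²)` -/
noncomputable def a (lam : ℝ) (p : Gamma F L) : ℝ := 4 * lam * (p.1.1.1 1).re / (1 + p.1.1.2 ^ 2)

/-- `∑_χ χ(1) ord_{s=1/2} L(s, χ)` -/
noncomputable def central : ℝ := ∑ᶠ χ ∈ Irr (F ≃ₐ[ℚ] F), (χ 1).re * analyticOrderNatAt (L χ) (1 / 2)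

end artin

open Pool.Agent.U544.LI in
/-- **Main theorem.** -/
theorem result :
    (∀ (E : Type) [Field E] [NumberField E], (∃ Z : ℂ → ℂ, IsZeta E Z) ∧
      ∀ Z : ℂ → ℂ, IsZeta E Z → ∀ lam : ℝ, 0 < lam →
        Law (fun g : Ordinates Z => g.1) (aSet Z lam) (Real.exp (2 * lam * analyticOrderNatAt Z (1 / 2))) (RH Z)
          (M E lam)) ∧
    (∀ (F : Type) [Field F] [NumberField F] [IsGalois ℚ F] (L : ((F ≃ₐ[ℚ] F) → ℂ) → ℂ → ℂ),
      (∀ χ ∈ Irr (F ≃ₐ[ℚ] F), IsArtinL χ (L χ)) → ∀ lam : ℝ, 0 < lam →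
        Law (ordinate (F := F) (L := L)) (a lam) (Real.exp (2 * lam * central F L))
          (∀ χ ∈ Irr (F ≃ₐ[ℚ] F), RH (L χ)) (M F lam)) := by
  constructor
  · intro E _ _
    refine ⟨exists_Z E, fun Z hZ lam hl => ?_⟩
    obtain ⟨c1, c2, c3, c4, c5⟩ := crit_ded (E := E) hZ hl (D := D E) (fun x hx => D_ideal E hx) rfl
    exact ⟨c1, c2, c3, c4, c5⟩
  · intro F _ _ _ L hL lam hl
    have hZ : ∀ χ ∈ Pool.Agent.H541R3.ART.Irr (F ≃ₐ[ℚ] F), IsArt F χ (L χ) := hL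
    have hc : Real.exp (2 * lam * central F L) = Real.exp (2 * lam *
        (∑ χ ∈ Pool.Agent.H541R3.ART.irrF (F ≃ₐ[ℚ] F), dg χ * analyticOrderNatAt (L χ) (1 / 2) : ℕ)) := by
      congr 2
      have h1 : central F L = ∑ χ ∈ Pool.Agent.H541R3.ART.irrF (F ≃ₐ[ℚ] F),
          (χ 1).re * analyticOrderNatAt (L χ) (1 / 2) :=
        finsum_mem_eq_finite_toFinset_sum _ (Pool.Agent.H541R3.ART.irr_finite (G := F ≃ₐ[ℚ] F))
      rw [h1]
      push_cast
      refine Finset.sum_congr rfl fun χ hχ => ?_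
      rw [(dg_spec (Pool.Agent.H541R3.ART.mem_irrF.1 hχ)).1, Complex.natCast_re]
    have hf : ∀ z : ℂ, z ≠ 1 / 2 → (fun z => ZD F (1 / 2 + z)) z =
        (z - 1 / 2) * ∏ χ ∈ Pool.Agent.H541R3.ART.irrF (F ≃ₐ[ℚ] F), L χ (1 / 2 + z) ^ dg χ := by
      intro z hz
      have h1 : (1 / 2 + z : ℂ) ≠ 1 := fun h => hz (by linear_combination h)
      show ZD F (1 / 2 + z) = _
      rw [art_fact hZ h1]
      ring
    have ha : ∀ p : GamP (fun χ => χ ∈ Pool.Agent.H541R3.ART.Irr (F ≃ₐ[ℚ] F)) L,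
        a lam (F := F) (L := L) p = 4 * lam * dg p.1.1.1 / (1 + p.1.1.2 ^ 2) := by
      intro p
      unfold a
      rw [(dg_spec p.2.1).1, Complex.natCast_re]
    obtain ⟨c1, c2, c3, c4, c5⟩ := crit_familyP (ld_ded F)
      (P := fun χ => χ ∈ Pool.Agent.H541R3.ART.Irr (F ≃ₐ[ℚ] F)) (S := Pool.Agent.H541R3.ART.irrF (F ≃ₐ[ℚ] F))
      (Z := L) (d := dg) (fun χ => Pool.Agent.H541R3.ART.mem_irrF.symm)
      (fun χ hχ => (dg_spec (Pool.Agent.H541R3.ART.mem_irrF.1 hχ)).2)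
      (fun χ hχ s hs => (hZ χ (Pool.Agent.H541R3.ART.mem_irrF.1 hχ)).1 s hs)
      (fun χ hχ => art_two (hZ χ (Pool.Agent.H541R3.ART.mem_irrF.1 hχ))) hf hl (D := D F)
      (fun x hx => D_ideal F hx) hc (a := a lam (F := F) (L := L)) ha
    exact ⟨c1, c2, c3, c4, c5⟩

end Pool.Agent.Results.MP_0f5a55_nt.ArtinMeanValue
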