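import Pool.Agent.U252.HR.Set2
import Pool.Agent.U544.LI.DedD

/-!
# The extreme values of a sum over the prime ideals and the relations between the zeros of Dedekind zeta functions

For a number field `E` let

`D_E(x) = (8/3) √x - ∑_𝔞 Λ(𝔞) N𝔞^(-1/2) min(N𝔞/x, x/N𝔞)`,

the sum over the ideals, `Λ(𝔭^k) = log N𝔭` and `Λ(𝔞) = 0` for all other ideals: a smoothed error term in the count of
the prime ideals. Let `Γ` be the set of the positive ordinates of the zeros of `ζ_E` on the critical line, `m_γ` and `m`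
the orders at `1/2 + iγ` and at `1/2`, `a_γ = 4 m_γ / (1 + γ²)`. A family `θ` of real numbers `θ_γ` is called compatible
if it satisfies all the integral relations between the ordinates modulo `2π`: `∑ n_γ γ = 0` implies
`∑ n_γ θ_γ ∈ 2πℤ`. We prove, for every number field `E` and without hypothesis on `E`:

* RH for `ζ_E` holds if and only if `D_E` is bounded above;
* if it holds, then, with nothing assumed on the ordinates, for all real `w_j` and `c_j > 0`
  `limsup ∑_j w_j D_E(c_j x) = 2 m ∑ w_j + sup_θ ∑_γ a_γ Re (e^{i θ_γ} ∑_j w_j c_j^{iγ})`,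
  the supremum over all compatible `θ`;
* if it holds, `limsup D_E = 2 m + ∑ a_γ`, and `liminf D_E = 2 m - ∑ a_γ` if and only if there is no odd relation, that
  is, all integral relations `∑ n_γ γ = 0` have an even sum of coefficients;
* (unconditionally) RH for `ζ_E` holds, `ζ_E(1/2) ≠ 0` and there is no odd relation if and only if
  `limsup D_E = - liminf D_E < ∞`.

If `E/ℚ` is Galois and all the Artin L-functions `L(s, χ, E/ℚ)` are analytic for `s ≠ 1`, then `Γ` is the set of the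
members of the multiset `Γ_E` of the question, since `ζ_E(s) = ∏_χ L(s, χ)^χ(1)`.

Proof. Under RH `D_E(x) = 2 m + ∑_γ a_γ cos (γ log x) + o(1)` (`Pool.Agent.U544.LI`). The closure of the curve
`t ↦ (e^{iγt})_γ` is the set of the compatible phases: this is Kronecker's theorem in the presence of relations, proved
by means of a basis of the group generated by finitely many ordinates. The phases `θ_γ = π` are compatible if and only
if there is no odd relation.
-/

set_option autoImplicit false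

open Filter Topology NumberField

namespace Pool.Agent.Results.MP_0f5a55_nt.ExtremesAndRelations

/-- `limsup_{x → ∞} W(x) = v` -/
def LimsupIs (W : ℝ → ℝ) (v : ℝ) : Prop :=
  (∀ ε : ℝ, 0 < ε → ∀ᶠ x in atTop, W x < v + ε) ∧ (∀ ε : ℝ, 0 < ε → ∃ᶠ x in atTop, v - ε < W x)

section field

variable (E : Type) [Field E] [NumberField E]

variable {E} in
open Classical in
/-- the von Mangoldt function of an ideal: `log N𝔭` for `𝔭^k`, `k ≥ 1`, and `0` otherwise -/
noncomputable def Lam (𝔞 : Ideal (𝓞 E)) : ℝ := if IsPrimePow 𝔞 then Real.log (Ideal.absNorm 𝔞.radical) else 0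

/-- `D_E(x) = (8/3) √x - ∑_𝔞 Λ(𝔞) N𝔞^(-1/2) min(N𝔞/x, x/N𝔞)` -/
noncomputable def D (x : ℝ) : ℝ :=
  8 / 3 * √x - ∑' 𝔞 : Ideal (𝓞 E), Lam 𝔞 / √(Ideal.absNorm 𝔞) * min (Ideal.absNorm 𝔞 / x) (x / Ideal.absNorm 𝔞)

/-- `Z` is the continuation of the Dedekind zeta function `ζ_E(s)` to all `s ≠ 1` -/
def IsZeta (Z : ℂ → ℂ) : Prop := (∀ s : ℂ, s ≠ 1 → AnalyticAt ℂ Z s) ∧ ∀ s : ℂ, 1 < s.re → Z s = dedekindZeta E s

end field

section zeros

variable (Z : ℂ → ℂ)

/-- the Riemann hypothesis for `Z` -/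
def RH : Prop := ∀ ρ : ℂ, 0 < ρ.re → ρ.re < 1 → Z ρ = 0 → ρ.re = 1 / 2

/-- `Γ`: the positive ordinates of the zeros of `Z` on the critical line -/
def Gam : Type := {g : ℝ // 0 < g ∧ Z (1 / 2 + g * Complex.I) = 0}

/-- the order of the zero of `Z` at `s` -/
noncomputable def mult (s : ℂ) : ℕ := analyticOrderNatAt Z s

variable {Z} in
/-- `a_γ = 4 m_γ / (1 + γ²)` -/
noncomputable def a (g : Gam Z) : ℝ := 4 * mult Z (1 / 2 + g.1 * Complex.I) / (1 + g.1 ^ 2)

variable {Z} in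
/-- the phases `θ` satisfy all the integral relations between the ordinates modulo `2π` -/
def Compatible (θ : Gam Z → ℝ) : Prop :=
  ∀ n : Gam Z →₀ ℤ, (n.sum fun g k => (k : ℝ) * g.1) = 0 →
    ∃ m : ℤ, (n.sum fun g k => (k : ℝ) * θ g) = m * (2 * Real.pi)

/-- `sup_θ ∑_γ a_γ Re (e^{i θ_γ} ∑_j w_j c_j^{iγ})` over the compatible phases -/
noncomputable def Ext {m : ℕ} (w c : Fin m → ℝ) : ℝ :=
  sSup {v : ℝ | ∃ θ : Gam Z → ℝ, Compatible θ ∧
    v = ∑' g : Gam Z, a g * ((∑ j, (w j : ℂ) * (c j : ℂ) ^ (g.1 * Complex.I)) * Complex.exp (θ g * Complex.I)).re}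

/-- there is no odd relation: all the relations `∑ n_γ γ = 0` have an even sum of coefficients -/
def NoOddRelation : Prop :=
  ∀ n : Gam Z →₀ ℤ, (n.sum fun g k => (k : ℝ) * g.1) = 0 → Even (n.sum fun _ k => k)

end zeros

open Pool.Agent.U544.LI Pool.Agent.U252.HR in
/-- **Main theorem.** -/
theorem result : ∀ (E : Type) [Field E] [NumberField E], (∃ Z : ℂ → ℂ, IsZeta E Z) ∧
    ∀ Z : ℂ → ℂ, IsZeta E Z →
      Summable (a (Z := Z)) ∧
      (RH Z ↔ ∃ C, ∀ᶠ x in atTop, D E x ≤ C) ∧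
      (RH Z → ∀ (m : ℕ) (w c : Fin m → ℝ), (∀ j, 0 < c j) →
        LimsupIs (fun x => ∑ j, w j * D E (c j * x)) (2 * mult Z (1 / 2) * (∑ j, w j) + Ext Z w c)) ∧
      (RH Z → LimsupIs (D E) (2 * mult Z (1 / 2) + ∑' g : Gam Z, a g)) ∧
      (RH Z → (LimsupIs (fun x => -D E x) (-(2 * mult Z (1 / 2)) + ∑' g : Gam Z, a g) ↔ NoOddRelation Z)) ∧
      ((RH Z ∧ Z (1 / 2) ≠ 0 ∧ NoOddRelation Z) ↔ ∃ v, LimsupIs (D E) v ∧ LimsupIs (fun x => -D E x) v) := by
  intro E _ _
  refine ⟨exists_Z E, fun Z hZ => ?_⟩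
  have h := ld_ded E
  have hf : ∀ z : ℂ, z ≠ 1 / 2 → (fun z => ZD E (1 / 2 + z)) z = (z - 1 / 2) * Z (1 / 2 + z) := by
    intro z hz
    have h1 : (1 / 2 + z : ℂ) ≠ 1 := fun h => hz (by linear_combination h)
    show ZD E (1 / 2 + z) = _
    rw [ZD_eq hZ h1]
    ring
  obtain ⟨c1, c2, c3, c4, c5, c6⟩ := set_thm h hf (D := D E) (fun x hx => D_ideal E hx)
  rw [central_iff h hf] at c6
  exact ⟨c1, c2, c3, c4, c5, c6⟩

end Pool.Agent.Results.MP_0f5a55_nt.ExtremesAndRelations
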