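import Pool.Agent.U745.DC.Base
import Pool.Agent.U745.DS.Major
import Pool.Agent.TH803.UC.Sets
import Pool.Agent.H295R2.SI.Fin

/-!
# Repeated ordinates of the zeros of Dirichlet L-functions, in terms of the primes

Linear independence of the multiset `Γ_F` forces every zero on the critical line to be simple and to
belong to only one character.  We show how the multiplicity of every single zero, and the number of
times a value occurs in `Γ_F` for abelian `F`, can be read off from sums over the primes, and that for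
more than one half of the zeros the primes show unconditionally that the zero is simple.

Let `χ` be a primitive Dirichlet character (the trivial one gives zeta).  For a point `s` of the complex
plane, a real number `τ` and `x > 1` put, with `ω = 1 + iτ`,

`P_{χ,s,τ}(x) = exp ∑_p ∑_{k ≥ 1} χ(p)^k p^{-ks} / (k Γ(1 + ω k log p / log x))`,

an absolutely convergent series over all prime powers; this is a smoothed form of the Euler product of
`L(s, χ)` over the primes up to `x`, at an arbitrary point `s` of the plane.  The direction `τ` is called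
free at `s` if there are no zeros of `L(·, χ)` and no pole on the ray `{s + ω y : y > 0}`.  Put
`κ = ∫_0^∞ (e^{-t} - 1/Γ(1 + t)) dt/t`.  We prove, without any hypothesis:

* there is an absolute `h₀ < 1` such that, for every primitive `χ` and every fixed direction `τ`, for
  large `T` and `T ^ h₀ ≤ H ≤ T`, more than one half (at least `0.5087`) of all nontrivial zeros of
  `L(s, χ)` with ordinates in `(T, T + H]` are simple zeros `ρ` on the critical line at which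
  `P_{χ,ρ,τ}(x) log x / (ω e^κ) = L'(ρ, χ) + O(1 / log x)`; and at least `0.6725` of all zeros are simple
  zeros on the critical line at which this is true for all but finitely many `τ` in every bounded
  interval;
* for every `s` all but finitely many `τ` in every bounded interval are free; let `m` be the multiplicity
  of `s` as a zero of `L(·, χ)` (`s ≠ 1` if `χ` is trivial) and let `L(w, χ) ~ ℓ (w - s)^m` for `w → s`.
  If `τ` is free at `s`, then `P_{χ,s,τ}(x) (log x / (ω e^κ))^m = ℓ + O(1 / log x)`.  If `τ` is not free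
  at `s`, then `|log |P_{χ,s,τ}(x)|| ≥ exp(x^c)` with a constant `c > 0`, for all large `x`;
* let `X` be a finite family of primitive characters, for example the characters of `Gal(F/ℚ)` for an
  abelian field `F`, so that `∏_χ P_{χ,s,τ}(x)` is the smoothed Euler product over the primes of `F`. No
  value `t > 0` occurs twice in the multiset of the ordinates of the critical zeros of all the `L(s, χ)`,
  `χ ∈ X`, if and only if for every `t > 0` there are a common free direction `τ` and `c > 0` with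
  `∏_χ |P_{χ,1/2+it,τ}(x)| ≥ c / log x` for large `x`; if a value `t` occurs at least twice, as a multiple
  zero or as a common zero of two characters, then this product is at most `C / (log x)²` in all common
  free directions.
-/

set_option autoImplicit false

namespace Pool.Agent.Results.MP_0f5a55_nt.MultiplicitiesFromPrimes

open Filter Topology Complex
open Pool.Agent.U745.DS

section defs

variable {q : ℕ} [NeZero q]

/-- the term of the series at the power `p^k`, `k = j + 1`: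
`χ(p)^k p^{-ks} / (k Γ(1 + ω k log p / log x))` -/
noncomputable def term (χ : DirichletCharacter ℂ q) (s : ℂ) (τ x : ℝ) (i : Nat.Primes × ℕ) : ℂ :=
  χ (i.1 : ℕ) ^ (i.2 + 1) * (((i.1 : ℕ) : ℂ) ^ (-s)) ^ (i.2 + 1) / ((i.2 + 1) *
    Gamma (1 + (1 + τ * I) * (((i.2 + 1) * Real.log (i.1 : ℕ) : ℝ) / Real.log x)))

/-- the smoothed Euler product `P_{χ,s,τ}(x)` -/
noncomputable def prod (χ : DirichletCharacter ℂ q) (s : ℂ) (τ x : ℝ) : ℂ :=
  exp (∑' i : Nat.Primes × ℕ, term χ s τ x i)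

/-- the point `s + (1 + iτ) y` -/
noncomputable def ray (s : ℂ) (τ y : ℝ) : ℂ := s + (1 + τ * I) * y

/-- the direction `τ` is free at the point `s`: no zero of `L(·, χ)` and, if `χ` is trivial, not the
point `1` on the ray -/
def Free (χ : DirichletCharacter ℂ q) (s : ℂ) (τ : ℝ) : Prop :=
  ∀ y : ℝ, 0 < y → (ray s τ y = 1 → χ ≠ 1) ∧ χ.LFunction (ray s τ y) ≠ 0

/-- `κ = ∫_0^∞ (e^{-t} - 1/Γ(1 + t)) dt/t` -/
noncomputable def kappa : ℝ :=
  ∫ t in Set.Ioi (0 : ℝ), (Real.exp (-t) - (Real.Gamma (1 + t))⁻¹) / t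

/-- the multiplicity of `s` as a zero of `L(·, χ)` (`0` if `L(s, χ) ≠ 0`) -/
noncomputable def mult (χ : DirichletCharacter ℂ q) (s : ℂ) : ℕ :=
  analyticOrderNatAt χ.LFunction s

/-- `P_{χ,s,τ}(x) (log x / (ω e^κ))^m = ℓ + O(1 / log x)` -/
def Law (χ : DirichletCharacter ℂ q) (s : ℂ) (τ : ℝ) (m : ℕ) (ℓ : ℂ) : Prop :=
  ∃ C : ℝ, ∀ᶠ x : ℝ in atTop,
    ‖prod χ s τ x * (Real.log x / ((1 + τ * I) * Real.exp kappa)) ^ m - ℓ‖ ≤ C / Real.log x

/-- `|log |P_{χ,s,τ}(x)|| ≥ exp (x^c)` for large `x` -/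
def Blows (χ : DirichletCharacter ℂ q) (s : ℂ) (τ : ℝ) : Prop :=
  ∃ c : ℝ, 0 < c ∧ ∀ᶠ x : ℝ in atTop, Real.exp (x ^ c) ≤ |Real.log ‖prod χ s τ x‖|

/-- the nontrivial zeros of `L(s, χ)` with ordinate in `(T₁, T₂]` -/
def zeros (χ : DirichletCharacter ℂ q) (T₁ T₂ : ℝ) : Set ℂ :=
  {s : ℂ | χ.LFunction s = 0 ∧ 0 < s.re ∧ s.re < 1 ∧ T₁ < s.im ∧ s.im ≤ T₂}

/-- the number of nontrivial zeros with ordinate in `(T₁, T₂]`, counted with multiplicity -/
noncomputable def N (χ : DirichletCharacter ℂ q) (T₁ T₂ : ℝ) : ℕ := ∑ᶠ s ∈ zeros χ T₁ T₂, mult χ s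

/-- the simple zeros `1/2 + it`, `T₁ < t ≤ T₂`, at which the primes give
`P_{χ,ρ,τ}(x) log x / (ω e^κ) = L'(ρ, χ) + O(1 / log x)`, `ρ = 1/2 + it` -/
def lawful (χ : DirichletCharacter ℂ q) (τ T₁ T₂ : ℝ) : Set ℝ :=
  {t : ℝ | T₁ < t ∧ t ≤ T₂ ∧ χ.LFunction (1 / 2 + I * t) = 0 ∧ deriv χ.LFunction (1 / 2 + I * t) ≠ 0 ∧
    Law χ (1 / 2 + I * t) τ 1 (deriv χ.LFunction (1 / 2 + I * t))}

/-- the simple zeros `1/2 + it`, `T₁ < t ≤ T₂`, at which this is true for all but finitely many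
directions `τ` in every bounded interval -/
def lawfulMost (χ : DirichletCharacter ℂ q) (T₁ T₂ : ℝ) : Set ℝ :=
  {t : ℝ | T₁ < t ∧ t ≤ T₂ ∧ χ.LFunction (1 / 2 + I * t) = 0 ∧ deriv χ.LFunction (1 / 2 + I * t) ≠ 0 ∧
    ∀ B : ℝ, {τ : ℝ | |τ| ≤ B ∧
      ¬ Law χ (1 / 2 + I * t) τ 1 (deriv χ.LFunction (1 / 2 + I * t))}.Finite}

end defs

/-! ### The laws -/

section laws

variable {q : ℕ} [NeZero q] {χ : DirichletCharacter ℂ q}

lemma term_eq (s : ℂ) (τ x : ℝ) (i : Nat.Primes × ℕ) : term χ s τ x i =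
    sh (G.plam Z.qp) (G.pco (U745.DC.al χ)) s i *
      (Gamma (1 + Pool.Agent.W524.RY.dir τ * (G.plam Z.qp i / Real.log x)))⁻¹ := by
  unfold term sh
  rw [G.exp_plam Z.norms_p]
  have e1 : G.pco (U745.DC.al χ) i = χ (i.1 : ℕ) ^ (i.2 + 1) / ((i.2 : ℂ) + 1) := by
    unfold G.pco
    simp
  have e2 : G.plam Z.qp i = (i.2 + 1) * Real.log (i.1 : ℕ) := rfl
  rw [e1, e2, div_eq_mul_inv, mul_inv, div_eq_mul_inv]
  unfold Pool.Agent.W524.RY.dir
  ring

lemma prod_eq (s : ℂ) (τ x : ℝ) : prod χ s τ x =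
    exp (WW (G.plam Z.qp) (sh (G.plam Z.qp) (G.pco (U745.DC.al χ)) s) τ x) := by
  unfold prod WW VV
  congr 1
  exact tsum_congr fun i => term_eq s τ x i

lemma log_norm (s : ℂ) (τ x : ℝ) : Real.log ‖prod χ s τ x‖ =
    (WW (G.plam Z.qp) (sh (G.plam Z.qp) (G.pco (U745.DC.al χ)) s) τ x).re := by
  rw [prod_eq, norm_exp, Real.log_exp]

lemma free_iff (hχ : χ.IsPrimitive) (s : ℂ) (τ : ℝ) :
    Free χ s τ ↔ Clear (fun z => χ.LFunction (s + z)) τ := by
  rw [clear_iff]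
  unfold Free
  refine forall_congr' fun y => imp_congr_right fun _ => ?_
  rw [U745.DC.order_zero_iff hχ]
  rfl

lemma law_iff (s : ℂ) (τ : ℝ) (m : ℕ) (ℓ : ℂ) : Law χ s τ m ℓ ↔
    Pool.Agent.U745.DS.Law (G.plam Z.qp) (sh (G.plam Z.qp) (G.pco (U745.DC.al χ)) s) τ m ℓ := by
  unfold Law Pool.Agent.U745.DS.Law
  refine exists_congr fun C => eventually_congr (Eventually.of_forall fun x => ?_)
  rw [prod_eq, zpow_natCast]
  rfl

lemma blows_iff (s : ℂ) (τ : ℝ) : Blows χ s τ ↔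
    Fast (G.plam Z.qp) (sh (G.plam Z.qp) (G.pco (U745.DC.al χ)) s) τ := by
  unfold Blows Fast
  refine exists_congr fun c => and_congr_right fun _ =>
    eventually_congr (Eventually.of_forall fun x => ?_)
  rw [log_norm]

lemma lead (hχ : χ.IsPrimitive) (s : ℂ) (hs : s = 1 → χ ≠ 1) : ∃ ℓ : ℂ, ℓ ≠ 0 ∧
    Tendsto (fun w => χ.LFunction w / (w - s) ^ mult χ s) (𝓝[≠] s) (𝓝 ℓ) ∧
    Pool.Agent.U745.LT.Leading (fun z => χ.LFunction (s + z)) 0 (mult χ s) ℓ := by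
  obtain ⟨r, ℓ, hℓ, h⟩ := exists_leading (U745.DC.ser hχ s)
  have hr : r = (mult χ s : ℤ) := by
    have h1 := ((Pool.Agent.U745.LT.leading_iff ((U745.DC.ser hχ s).mer 0 (by simp)) hℓ).1 h).1
    rw [order_shift, add_zero, U745.DC.order_eq hχ hs] at h1
    have : ((analyticOrderNatAt χ.LFunction s : ℕ) : ℤ) = r := by exact_mod_cast h1
    rw [← this]
    rfl
  rw [hr] at h
  refine ⟨ℓ, hℓ, ?_, h⟩
  have h2 := (leading_shift χ.LFunction s (mult χ s) ℓ).1 h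
  unfold Pool.Agent.U745.LT.Leading at h2
  refine h2.congr fun w => ?_
  rw [zpow_neg, zpow_natCast, div_eq_mul_inv, mul_comm]

/-- the alternative at a point -/
theorem alt (hχ : χ.IsPrimitive) (s : ℂ) {ℓ : ℂ} (hℓ : ℓ ≠ 0)
    (h : Pool.Agent.U745.LT.Leading (fun z => χ.LFunction (s + z)) 0 (mult χ s) ℓ) (τ : ℝ) :
    (Free χ s τ → Law χ s τ (mult χ s) ℓ) ∧ (¬ Free χ s τ → Blows χ s τ) := by
  rw [free_iff hχ, law_iff, blows_iff]
  rcases alternative (U745.DC.ser hχ s) hℓ h τ with ⟨h1, h2, -, -⟩ | ⟨h1, h2, -, -⟩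
  · exact ⟨fun _ => h2, fun h3 => absurd h1 h3⟩
  · exact ⟨fun h3 => absurd h3 h1, fun _ => h2⟩

theorem size (hχ : χ.IsPrimitive) {s : ℂ} {τ : ℝ} (hs : s = 1 → χ ≠ 1) (hf : Free χ s τ) :
    ∃ a b : ℝ, 0 < a ∧ 0 < b ∧
    ∀ᶠ x : ℝ in atTop, a / Real.log x ^ mult χ s ≤ ‖prod χ s τ x‖ ∧
      ‖prod χ s τ x‖ ≤ b / Real.log x ^ mult χ s := by
  obtain ⟨ℓ, hℓ, -, h⟩ := lead hχ s hs
  have h1 := (law_iff s τ (mult χ s) ℓ).1 ((alt hχ s hℓ h τ).1 hf)
  simp only [prod_eq]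
  exact Z.size_of_law hℓ h1

theorem finite_bad (hχ : χ.IsPrimitive) (s : ℂ) (B : ℝ) : {τ : ℝ | |τ| ≤ B ∧ ¬ Free χ s τ}.Finite := by
  refine ((U745.DC.ser hχ s).blocked_finite B).subset ?_
  rintro τ ⟨h1, h2⟩
  rw [free_iff hχ] at h2
  unfold Clear at h2
  push Not at h2
  exact ⟨h1, h2⟩

/-! ### Most zeros -/

lemma lead_simple (hχ : χ.IsPrimitive) {s : ℂ} (hs : s ≠ 1) (h0 : χ.LFunction s = 0)
    (h1 : mult χ s = 1) : deriv χ.LFunction s ≠ 0 ∧
      Pool.Agent.U745.LT.Leading (fun z => χ.LFunction (s + z)) 0 (mult χ s)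
        (deriv χ.LFunction s) := by
  obtain ⟨ℓ, hℓ, h2, h3⟩ := lead hχ s fun h => absurd h hs
  have h4 : Tendsto (fun w => χ.LFunction w / (w - s) ^ mult χ s) (𝓝[≠] s)
      (𝓝 (deriv χ.LFunction s)) := by
    have h5 := hasDerivAt_iff_tendsto_slope.1
      (U745.DC.an (χ := χ) fun h => absurd h hs).differentiableAt.hasDerivAt
    refine h5.congr fun w => ?_
    rw [slope_def_field, h0, sub_zero, h1, pow_one]
  have h5 : ℓ = deriv χ.LFunction s := tendsto_nhds_unique h2 h4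
  rw [← h5]
  exact ⟨hℓ, h3⟩

theorem law_simple (hχ : χ.IsPrimitive) {s : ℂ} {τ : ℝ} (hs : s ≠ 1) (h0 : χ.LFunction s = 0)
    (h1 : mult χ s = 1) (hf : Free χ s τ) : Law χ s τ 1 (deriv χ.LFunction s) := by
  obtain ⟨h2, h3⟩ := lead_simple hχ hs h0 h1
  have h4 := (alt hχ s h2 h3 τ).1 hf
  rwa [h1] at h4

theorem free_of_clr {s : ℂ} {τ : ℝ} (hs : s.re = 1 / 2) (hτ : |τ| < s.im)
    (h : Major.Clr χ.LFunction τ s) : Free χ s τ := by
  intro y hy
  have hre : (ray s τ y).re = 1 / 2 + y := by simp [ray, hs]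
  have him : (ray s τ y).im = s.im + τ * y := by simp [ray]
  have hne : ray s τ y ≠ 1 := by
    intro h2
    rw [h2, one_re] at hre
    rw [h2, one_im] at him
    have e1 : y = 1 / 2 := by linarith
    rw [e1] at him
    have h3 := abs_lt.1 hτ
    have h4 := abs_nonneg τ
    linarith [h3.1]
  refine ⟨fun h2 => absurd h2 hne, ?_⟩
  by_cases h1 : y < 1 / 2
  · exact h y hy h1
  · rw [not_lt] at h1
    exact DirichletCharacter.LFunction_ne_zero_of_one_le_re χ (Or.inr hne) (by rw [hre]; linarith)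

lemma zeros_eq (T₁ T₂ : ℝ) : zeros χ T₁ T₂ = H370.zset χ.LFunction T₁ T₂ := by
  ext s
  simp only [zeros, H370.zset, Set.mem_ofPred_eq]
  tauto

theorem zeros_finite (hχ : χ.IsPrimitive) (T₁ T₂ : ℝ) (h : 0 < T₁) : (zeros χ T₁ T₂).Finite := by
  rw [zeros_eq]
  exact H370.zset_finite' (H370.good_dirichlet χ hχ) T₁ T₂ h

lemma N_eq (T₁ T₂ : ℝ) : N χ T₁ T₂ = H370.NN χ.LFunction T₁ T₂ := by
  unfold N H370.NN H370.mult mult
  rw [zeros_eq]

theorem fin_aux (hχ : χ.IsPrimitive) (T₁ T₂ : ℝ) (h : 0 < T₁) {A : Set ℝ}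
    (hA : ∀ t ∈ A, T₁ < t ∧ t ≤ T₂ ∧ χ.LFunction (1 / 2 + I * t) = 0) : A.Finite := by
  have hinj : Function.Injective fun t : ℝ => (1 / 2 + I * t : ℂ) := by
    intro a b hab
    have := congrArg Complex.im hab
    simpa using this
  refine Set.Finite.of_finite_image ((zeros_finite hχ T₁ T₂ h).subset ?_) hinj.injOn
  rintro s ⟨t, ht, rfl⟩
  obtain ⟨h1, h2, h3⟩ := hA t ht
  refine ⟨h3, ?_, ?_, ?_, ?_⟩ <;> simp <;> first | assumption | norm_num

/-- a simple zero on the critical line -/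
theorem simple_aux (hχ : χ.IsPrimitive) {s : ℂ} (h0 : χ.LFunction s = 0) (h1 : s.re = 1 / 2)
    (h2 : mult χ s = 1) :
    (1 / 2 + I * ((s.im : ℝ) : ℂ) : ℂ) = s ∧ s ≠ 1 ∧ deriv χ.LFunction s ≠ 0 := by
  have hs : (1 / 2 + I * ((s.im : ℝ) : ℂ) : ℂ) = s := by
    apply Complex.ext
    · simp [h1]
    · simp
  have hs1 : s ≠ 1 := by
    intro h
    rw [h] at h1
    norm_num at h1
  exact ⟨hs, hs1, (lead_simple hχ hs1 h0 h2).1⟩

theorem fr_le (hχ : χ.IsPrimitive) {τ T₁ T₂ : ℝ} (h : 1 ≤ T₁) (hτ : |τ| ≤ T₁) :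
    (Major.fr χ.LFunction τ T₁ T₂).card ≤ (lawful χ τ T₁ T₂).ncard := by
  classical
  rw [← Set.ncard_coe_finset]
  refine Set.ncard_le_ncard_of_injOn (fun s => s.im) ?_ ?_
    (fin_aux hχ T₁ T₂ (by linarith) fun t ht => ⟨ht.1, ht.2.1, ht.2.2.1⟩)
  · intro s hs
    rw [Finset.mem_coe] at hs
    unfold Major.fr at hs
    rw [Finset.mem_filter] at hs
    obtain ⟨hs1, h6, h7, h8⟩ := hs
    obtain ⟨h1, h2, h3, h4, h5⟩ := (H370.mem_Zf (H370.good_dirichlet χ hχ) h).mp hs1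
    have hm : mult χ s = 1 := h7
    obtain ⟨a1, a2, a4⟩ := simple_aux hχ h5 h6 hm
    refine ⟨h3, h4, ?_, ?_, ?_⟩
    · rw [a1]; exact h5
    · rw [a1]; exact a4
    · rw [a1]
      exact law_simple hχ a2 h5 hm (free_of_clr h6 (lt_of_le_of_lt hτ h3) h8)
  · intro s hs s' hs' h
    rw [Finset.mem_coe] at hs hs'
    unfold Major.fr at hs hs'
    rw [Finset.mem_filter] at hs hs'
    exact Complex.ext (hs.2.1.trans hs'.2.1.symm) h

theorem iso_le (hχ : χ.IsPrimitive) {T₁ T₂ d : ℝ} (h : 1 ≤ T₁) :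
    (TH803CL.isoA χ.LFunction T₁ T₂ d).card ≤ (lawfulMost χ T₁ T₂).ncard := by
  classical
  rw [← Set.ncard_coe_finset]
  refine Set.ncard_le_ncard_of_injOn (fun s => s.im) ?_ ?_
    (fin_aux hχ T₁ T₂ (by linarith) fun t ht => ⟨ht.1, ht.2.1, ht.2.2.1⟩)
  · intro s hs
    rw [Finset.mem_coe] at hs
    unfold TH803CL.isoA at hs
    rw [Finset.mem_filter] at hs
    obtain ⟨hs1, h6, h7, -⟩ := hs
    obtain ⟨h1, h2, h3, h4, h5⟩ := (H370.mem_Zf (H370.good_dirichlet χ hχ) h).mp hs1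
    have hm : mult χ s = 1 := h7
    obtain ⟨a1, a2, a4⟩ := simple_aux hχ h5 h6 hm
    refine ⟨h3, h4, ?_, ?_, fun B => (finite_bad hχ s B).subset ?_⟩
    · rw [a1]; exact h5
    · rw [a1]; exact a4
    · rintro τ ⟨b1, b2⟩
      rw [a1] at b2
      exact ⟨b1, fun b3 => b2 (law_simple hχ a2 h5 hm b3)⟩
  · intro s hs s' hs' h
    rw [Finset.mem_coe] at hs hs'
    unfold TH803CL.isoA at hs hs'
    rw [Finset.mem_filter] at hs hs'
    exact Complex.ext (hs.2.1.trans hs'.2.1.symm) h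

end laws

/-- most zeros -/
theorem most : ∃ h₀ : ℝ, 0 < h₀ ∧ h₀ < 1 ∧ ∀ (q : ℕ) [NeZero q] (χ : DirichletCharacter ℂ q),
    χ.IsPrimitive →
      (∀ τ : ℝ, ∃ T₀ : ℝ, ∀ T : ℝ, T₀ ≤ T → ∀ H : ℝ, T ^ h₀ ≤ H → H ≤ T →
        0.5087 * (N χ T (T + H) : ℝ) ≤ ((lawful χ τ T (T + H)).ncard : ℝ)) ∧
      ∃ T₀ : ℝ, ∀ T : ℝ, T₀ ≤ T → ∀ H : ℝ, T ^ h₀ ≤ H → H ≤ T →
        0.6725 * (N χ T (T + H) : ℝ) ≤ ((lawfulMost χ T (T + H)).ncard : ℝ) := by
  obtain ⟨h1, h10, h11, hm1⟩ := Major.main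
  obtain ⟨κ, h2, hκ, h20, h21, hm2⟩ := TH803CL.isoS_main
  refine ⟨max h1 h2, lt_max_of_lt_left h10, max_lt h11 h21, fun q _ χ hχ => ⟨fun τ => ?_, ?_⟩⟩
  · obtain ⟨T0, hT⟩ := hm1 χ.LFunction (H370.good_dirichlet χ hχ) τ
    refine ⟨max T0 (max 1 |τ|), fun T hTT H hH1 hH2 => ?_⟩
    have a1 : T0 ≤ T := (le_max_left _ _).trans hTT
    have a2 : 1 ≤ T := (le_max_left _ _).trans ((le_max_right _ _).trans hTT)
    have a3 : |τ| ≤ T := (le_max_right _ _).trans ((le_max_right _ _).trans hTT)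
    have a4 : T ^ h1 ≤ T ^ max h1 h2 := Real.rpow_le_rpow_of_exponent_le a2 (le_max_left _ _)
    have a5 := hT T a1 H (a4.trans hH1) hH2
    have a6 : ((Major.fr χ.LFunction τ T (T + H)).card : ℝ) ≤
        ((lawful χ τ T (T + H)).ncard : ℝ) := by exact_mod_cast fr_le hχ a2 a3
    rw [N_eq]
    norm_num at a5 ⊢
    linarith
  · obtain ⟨δ, hδ0, hδ1, hδ2⟩ : ∃ δ : ℝ, 0 < δ ∧ δ ≤ 1 / 30 ∧ 74 * δ ^ 2 ≤ κ := by
      refine ⟨min (1 / 30) (κ / 74), by positivity, min_le_left _ _, ?_⟩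
      have h1 : min (1 / 30) (κ / 74) ≤ 1 / 30 := min_le_left _ _
      have h2 : min (1 / 30) (κ / 74) ≤ κ / 74 := min_le_right _ _
      have h3 : 0 < min (1 / 30) (κ / 74) := by positivity
      nlinarith
    obtain ⟨T0, hT0, hT⟩ := hm2 χ.LFunction (H370.good_dirichlet χ hχ) δ hδ0 hδ1
    refine ⟨max T0 1, fun T hTT H hH1 hH2 => ?_⟩
    have a1 : T0 ≤ T := (le_max_left _ _).trans hTT
    have a2 : 1 ≤ T := (le_max_right _ _).trans hTT
    have a4 : T ^ h2 ≤ T ^ max h1 h2 := Real.rpow_le_rpow_of_exponent_le a2 (le_max_right _ _)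
    have a5 := hT T a1 H (a4.trans hH1) hH2
    have a6 : ((TH803CL.isoA χ.LFunction T (T + H) (δ / Real.log T)).card : ℝ) ≤
        ((lawfulMost χ T (T + H)).ncard : ℝ) := by exact_mod_cast iso_le hχ a2
    have hcc : H295SI.cc 1 ≤ 1.3275 := TH803UC.cc_lt
    have hN : (0 : ℝ) ≤ H370.NN χ.LFunction T (T + H) := Nat.cast_nonneg _
    rw [N_eq]
    refine le_trans (mul_le_mul_of_nonneg_right ?_ hN) (a5.trans a6)
    norm_num at hcc ⊢
    linarith

/-! ### Families of characters -/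

section family

variable {ι : Type} {q : ι → ℕ} [∀ i, NeZero (q i)] {χ : ∀ i, DirichletCharacter ℂ (q i)}

theorem size_prod (hχ : ∀ i, (χ i).IsPrimitive) {s : ℂ} (hs : s ≠ 1) {τ : ℝ}
    (hf : ∀ i, Free (χ i) s τ) (A : Finset ι) : ∃ a b : ℝ, 0 < a ∧ 0 < b ∧
    ∀ᶠ x : ℝ in atTop, a / Real.log x ^ (∑ i ∈ A, mult (χ i) s) ≤ ∏ i ∈ A, ‖prod (χ i) s τ x‖ ∧
      ∏ i ∈ A, ‖prod (χ i) s τ x‖ ≤ b / Real.log x ^ (∑ i ∈ A, mult (χ i) s) := by
  classical
  induction A using Finset.induction_on with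
  | empty => exact ⟨1, 1, one_pos, one_pos, by simp⟩
  | insert j A hj ih =>
    obtain ⟨a, b, ha, hb, h⟩ := ih
    obtain ⟨a', b', ha', hb', h'⟩ := size (hχ j) (s := s) (fun h => absurd h hs) (hf j)
    refine ⟨a' * a, b' * b, by positivity, by positivity, ?_⟩
    filter_upwards [h, h', Real.tendsto_log_atTop.eventually (eventually_gt_atTop 0)]
      with x h1 h2 h3
    rw [Finset.prod_insert hj, Finset.sum_insert hj, pow_add, mul_div_mul_comm, mul_div_mul_comm]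
    constructor
    · exact mul_le_mul h2.1 h1.1 (by positivity) (norm_nonneg _)
    · exact mul_le_mul h2.2 h1.2 (Finset.prod_nonneg fun i _ => norm_nonneg _) (by positivity)

theorem exists_free [Fintype ι] (hχ : ∀ i, (χ i).IsPrimitive) (s : ℂ) :
    ∃ τ : ℝ, ∀ i, Free (χ i) s τ := by
  have h1 : (⋃ i, {τ : ℝ | |τ| ≤ 1 ∧ ¬ Free (χ i) s τ}).Finite :=
    Set.finite_iUnion fun i => finite_bad (hχ i) s 1
  have h2 : (Set.Icc (-1 : ℝ) 1).Infinite := Set.Icc_infinite (by norm_num)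
  obtain ⟨τ, h3, h4⟩ := (h2.sdiff h1).nonempty
  refine ⟨τ, fun i => ?_⟩
  by_contra h5
  exact h4 (Set.mem_iUnion.2 ⟨i, abs_le.2 h3, h5⟩)

lemma half_ne (t : ℝ) : (1 / 2 + I * t : ℂ) ≠ 1 := by
  intro h
  have := congrArg Complex.re h
  norm_num at this

end family

/-- **Multiplicities and repeated ordinates in terms of the primes.** -/
theorem result :
    -- most zeros of one L-function
    (∃ h₀ : ℝ, 0 < h₀ ∧ h₀ < 1 ∧ ∀ (q : ℕ) [NeZero q] (χ : DirichletCharacter ℂ q),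
      χ.IsPrimitive →
        (∀ τ : ℝ, ∃ T₀ : ℝ, ∀ T : ℝ, T₀ ≤ T → ∀ H : ℝ, T ^ h₀ ≤ H → H ≤ T →
          0.5087 * (N χ T (T + H) : ℝ) ≤ ((lawful χ τ T (T + H)).ncard : ℝ)) ∧
        ∃ T₀ : ℝ, ∀ T : ℝ, T₀ ≤ T → ∀ H : ℝ, T ^ h₀ ≤ H → H ≤ T →
          0.6725 * (N χ T (T + H) : ℝ) ≤ ((lawfulMost χ T (T + H)).ncard : ℝ)) ∧
    -- every point
    (∀ (q : ℕ) [NeZero q] (χ : DirichletCharacter ℂ q), χ.IsPrimitive →
      (∀ (s : ℂ) (τ x : ℝ), 1 < x → Summable fun i => ‖term χ s τ x i‖) ∧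
      (∀ (s : ℂ) (B : ℝ), {τ : ℝ | |τ| ≤ B ∧ ¬ Free χ s τ}.Finite) ∧
      ∀ s : ℂ, (s = 1 → χ ≠ 1) → ∃ ℓ : ℂ, ℓ ≠ 0 ∧
        Tendsto (fun w => χ.LFunction w / (w - s) ^ mult χ s) (𝓝[≠] s) (𝓝 ℓ) ∧
        ∀ τ : ℝ, (Free χ s τ → Law χ s τ (mult χ s) ℓ) ∧ (¬ Free χ s τ → Blows χ s τ)) ∧
    -- repeated ordinates in finite families of characters
    ∀ (ι : Type) [Fintype ι] (q : ι → ℕ) [∀ i, NeZero (q i)]
      (χ : ∀ i, DirichletCharacter ℂ (q i)), (∀ i, (χ i).IsPrimitive) →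
      (∀ t : ℝ, ∃ τ : ℝ, ∀ i, Free (χ i) (1 / 2 + I * t) τ) ∧
      (∀ t τ : ℝ, (∀ i, Free (χ i) (1 / 2 + I * t) τ) →
        (∑ i, mult (χ i) (1 / 2 + I * t) ≤ 1 → ∃ c : ℝ, 0 < c ∧ ∀ᶠ x : ℝ in atTop,
          c / Real.log x ≤ ∏ i, ‖prod (χ i) (1 / 2 + I * t) τ x‖) ∧
        (2 ≤ ∑ i, mult (χ i) (1 / 2 + I * t) → ∃ C : ℝ, 0 < C ∧ ∀ᶠ x : ℝ in atTop,
          ∏ i, ‖prod (χ i) (1 / 2 + I * t) τ x‖ ≤ C / Real.log x ^ 2)) ∧
      ((∀ t : ℝ, 0 < t → ∑ i, mult (χ i) (1 / 2 + I * t) ≤ 1) ↔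
        ∀ t : ℝ, 0 < t → ∃ τ : ℝ, (∀ i, Free (χ i) (1 / 2 + I * t) τ) ∧ ∃ c : ℝ, 0 < c ∧
          ∀ᶠ x : ℝ in atTop, c / Real.log x ≤ ∏ i, ‖prod (χ i) (1 / 2 + I * t) τ x‖) := by
  have hlog := Real.tendsto_log_atTop
  refine ⟨most, fun q _ χ hχ => ⟨fun s τ x hx => ?_, finite_bad hχ, fun s hs => ?_⟩,
    fun ι _ q _ χ hχ => ?_⟩
  · refine (VV_summable (U745.DC.ser hχ s) τ (Real.log_pos hx)).congr fun i => ?_
    rw [term_eq]
  · obtain ⟨ℓ, hℓ, h1, h2⟩ := lead hχ s hs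
    exact ⟨ℓ, hℓ, h1, fun τ => alt hχ s hℓ h2 τ⟩
  · have key : ∀ t τ : ℝ, (∀ i, Free (χ i) (1 / 2 + I * t) τ) →
        (∑ i, mult (χ i) (1 / 2 + I * t) ≤ 1 → ∃ c : ℝ, 0 < c ∧ ∀ᶠ x : ℝ in atTop,
          c / Real.log x ≤ ∏ i, ‖prod (χ i) (1 / 2 + I * t) τ x‖) ∧
        (2 ≤ ∑ i, mult (χ i) (1 / 2 + I * t) → ∃ C : ℝ, 0 < C ∧ ∀ᶠ x : ℝ in atTop,
          ∏ i, ‖prod (χ i) (1 / 2 + I * t) τ x‖ ≤ C / Real.log x ^ 2) := by
      intro t τ hf
      obtain ⟨a, b, ha, hb, h⟩ := size_prod hχ (half_ne t) hf Finset.univ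
      constructor
      · intro hm
        refine ⟨a, ha, ?_⟩
        filter_upwards [h, hlog.eventually (eventually_ge_atTop 1)] with x h1 h2
        refine le_trans ?_ h1.1
        have : Real.log x ^ (∑ i, mult (χ i) (1 / 2 + I * t)) ≤ Real.log x ^ 1 :=
          pow_le_pow_right₀ h2 hm
        rw [pow_one] at this
        gcongr
      · intro hm
        refine ⟨b, hb, ?_⟩
        filter_upwards [h, hlog.eventually (eventually_ge_atTop 1)] with x h1 h2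
        refine h1.2.trans ?_
        have : Real.log x ^ 2 ≤ Real.log x ^ (∑ i, mult (χ i) (1 / 2 + I * t)) :=
          pow_le_pow_right₀ h2 hm
        gcongr
    refine ⟨fun t => exists_free hχ _, key, ?_⟩
    constructor
    · intro h t ht
      obtain ⟨τ, hτ⟩ := exists_free hχ (1 / 2 + I * (t : ℂ))
      exact ⟨τ, hτ, (key t τ hτ).1 (h t ht)⟩
    · intro h t ht
      obtain ⟨τ, hτ, c, hc, hx⟩ := h t ht
      by_contra hm
      obtain ⟨C, hC, h2⟩ := (key t τ hτ).2 (by omega)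
      obtain ⟨x, g1, g2, g3, g4⟩ := (hx.and (h2.and
        ((hlog.eventually (eventually_gt_atTop (C / c))).and
        (hlog.eventually (eventually_ge_atTop 1))))).exists
      have hT : 0 < Real.log x := by linarith
      have g5 : c / Real.log x ≤ C / Real.log x ^ 2 := g1.trans g2
      rw [div_le_div_iff₀ hT (by positivity), pow_two, ← mul_assoc] at g5
      have g6 : c * Real.log x ≤ C := le_of_mul_le_mul_right g5 hT
      rw [div_lt_iff₀ hc] at g3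
      linarith

end Pool.Agent.Results.MP_0f5a55_nt.MultiplicitiesFromPrimes
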